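import Pool.Agent.H44.DU.Targets

/-!
# Board du_modules (MP_81a758_an), module `AB`
-/

set_option autoImplicit false

namespace Pool.Agent.H33.DU.AB

open Pool.Agent.H44.DU

variable {n : ℕ} (S : Surf n)

/-- scale of the letter number `k` -/
def aa (w : List (Side n)) (k : ℕ) : ℝ := ((w[k]?).map S.a).getD 1

/-- height after the letter number `k` -/
noncomputable def hh (U T : Fin n → Prop) (t x : ℝ) (w : List (Side n)) (k : ℕ) : ℝ :=
  ((w[k]?).map (fun r => S.hin U T t r (S.g t (w.take (k + 1)) x))).getD 1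

theorem A_eq (w : List (Side n)) : S.A w = ∏ k ∈ Finset.range w.length, aa S w k := by
  induction w with
  | nil => simp [Surf.A]
  | cons r w ih =>
    rw [Surf.A, ih, List.length_cons, Finset.prod_range_succ', mul_comm]
    congr 1

theorem aa_eq (u : List (Side n)) (r : Side n) (w' : List (Side n)) :
    aa S (u ++ r :: w') u.length = S.a r := by
  simp [aa]

theorem hh_eq (U T : Fin n → Prop) (t x : ℝ) (u : List (Side n)) (r : Side n)
    (w' : List (Side n)) :
    hh S U T t x (u ++ r :: w') u.length = S.hin U T t r (S.g t (u ++ [r]) x) := by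
  have : (u ++ r :: w').take (u.length + 1) = u ++ [r] := by
    rw [List.take_append]
    simp
  simp only [hh, this]
  simp

theorem split (w : List (Side n)) (k : ℕ) (hk : k < w.length) :
    ∃ u r w', w = u ++ r :: w' ∧ u.length = k := by
  refine ⟨w.take k, w[k], w.drop (k + 1), ?_, ?_⟩
  · rw [← List.drop_eq_getElem_cons hk, List.take_append_drop]
  · rw [List.length_take]; omega

theorem split2 (w : List (Side n)) (k : ℕ) (hk : k + 1 < w.length) :
    ∃ u r r' w', w = u ++ r :: r' :: w' ∧ u.length = k := by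
  obtain ⟨u, r, w', hw, hu⟩ := split w k (by omega)
  cases w' with
  | nil =>
    exfalso
    rw [hw] at hk
    simp at hk
    omega
  | cons r' w'' => exact ⟨u, r, r', w'', hw, hu⟩

theorem run_mid {t x : ℝ} {u w' : List (Side n)} {r : Side n} (h : S.Run t (u ++ r :: w') x) :
    S.InJ t r (S.g t u x) := by
  rw [Surf.run_append] at h
  exact h.2.2.1

theorem run_mid2 {t x : ℝ} {u w' : List (Side n)} {r r' : Side n}
    (h : S.Run t (u ++ r :: r' :: w') x) :
    (S.gl r).1 = r'.1 ∧ S.InJ t r' (S.g t (u ++ [r]) x) := by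
  rw [Surf.run_append] at h
  have h1 := (S.run_cons_cons t r r' w' _).1 h.2.2
  refine ⟨h1.2.1, ?_⟩
  rw [Surf.g_append, Surf.g_single]
  exact h1.2.2.1

theorem pf_AB (h1 : T_WE) (h2 : T_HB) (h3 : T_CA) (h4 : T_HR) : T_AB := by
  intro n S U T hM K N
  obtain ⟨c₁, hc₁, L, hWE⟩ := h1 n S U T hM K N
  obtain ⟨c₂, hc₂, hHB⟩ := h2 n S U T hM K
  obtain ⟨hR1, hR2, D, hD, hR3⟩ := h4 n S U T hM
  have hMpos : 0 < 1 + ∑ s, S.a s := by
    have : 0 ≤ ∑ s, S.a s := Finset.sum_nonneg (fun s _ => (S.a_pos s).le)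
    linarith
  obtain ⟨C, hC, ρ, hρ0, hρ1, hCA⟩ := h3 (min c₁ c₂) D (1 + ∑ s, S.a s) L (3 * n)
    (lt_min hc₁ hc₂) hD hMpos
  refine ⟨C, hC, ρ, hρ0, hρ1, ?_⟩
  intro t ht hB w x hU hrun
  -- letters are in `U`
  have hUr : ∀ u r w', w = u ++ r :: w' → U r.1 := by
    intro u r w' hw
    apply hU
    rw [hw]
    simp
  -- positivity and bounds
  have hpos : ∀ u r w', w = u ++ r :: w' → 0 < S.hin U T t r (S.g t (u ++ [r]) x) ∧
      S.hin U T t r (S.g t (u ++ [r]) x) ≤ D := by
    intro u r w' hw
    have hJ : S.InJ t r (S.g t u x) := by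
      rw [hw] at hrun
      exact run_mid S hrun
    obtain ⟨-, ho, hoi, -, -⟩ := hR1 t _ r hJ (hUr u r w' hw)
    have hg : S.g t (u ++ [r]) x = S.mv t r (S.g t u x) := by
      rw [Surf.g_append, Surf.g_single]
    rw [hg]
    refine ⟨lt_of_lt_of_le (mul_pos (S.a_pos r) ho) hoi, ?_⟩
    have hI : S.InI t (S.gl r) (S.mv t r (S.g t u x)) := (S.inI_gl_iff t r _).2 hJ
    exact le_trans (le_abs_self _) (hR3 t _ (S.gl r) (Or.inr hI))
  rw [A_eq]
  apply hCA w.length (aa S w) (hh S U T t x w)
  · intro k hk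
    obtain ⟨u, r, w', hw, hu⟩ := split w k hk
    have e1 : aa S w k = S.a r := by rw [hw, ← hu, aa_eq]
    have e2 : hh S U T t x w k = S.hin U T t r (S.g t (u ++ [r]) x) := by
      rw [hw, ← hu, hh_eq]
    rw [e1, e2]
    refine ⟨S.a_pos r, ?_, (hpos u r w' hw).1, (hpos u r w' hw).2⟩
    have : S.a r ≤ ∑ s, S.a s :=
      Finset.single_le_sum (f := S.a) (fun s _ => (S.a_pos s).le) (Finset.mem_univ r)
    linarith
  · intro k hk
    obtain ⟨u, r, r', w', hw, hu⟩ := split2 w k hk
    have hw2 : w = (u ++ [r]) ++ r' :: w' := by rw [hw]; simp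
    have hu2 : (u ++ [r]).length = k + 1 := by simp [hu]
    have e1 : aa S w (k + 1) = S.a r' := by rw [hw2, ← hu2, aa_eq]
    have e2 : hh S U T t x w k = S.hin U T t r (S.g t (u ++ [r]) x) := by
      rw [hw, ← hu, hh_eq]
    have e3 : hh S U T t x w (k + 1) = S.hin U T t r' (S.g t (u ++ [r] ++ [r']) x) := by
      rw [hw2, ← hu2, hh_eq]
    rw [e1, e2, e3]
    have hrun' := hrun
    rw [hw] at hrun'
    obtain ⟨hj, hJ'⟩ := run_mid2 S hrun'
    have hJ := run_mid S hrun'
    have hI : S.InI t (S.gl r) (S.g t (u ++ [r]) x) := by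
      rw [Surf.g_append, Surf.g_single]
      exact (S.inI_gl_iff t r _).2 hJ
    have hUr' : U r'.1 := hUr (u ++ [r]) r' w' hw2
    have hge : S.hin U T t r (S.g t (u ++ [r]) x) ≤ S.hout U T t r' (S.g t (u ++ [r]) x) := by
      obtain ⟨hT, hnT⟩ := hR2 t (S.g t (u ++ [r]) x) r r' hj hUr' hI hJ'
      by_cases hTr : T r'.1
      · obtain ⟨a1, a2⟩ := hT hTr
        rw [a1, a2]
      · obtain ⟨a1, a2⟩ := hnT hTr
        rw [a1]; linarith
    obtain ⟨-, ho, hoi, -, -⟩ := hR1 t _ r' hJ' hUr'
    have hg : S.g t (u ++ [r] ++ [r']) x = S.mv t r' (S.g t (u ++ [r]) x) := by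
      rw [Surf.g_append, Surf.g_single]
    rw [hg]
    exact le_trans (mul_le_mul_of_nonneg_left hge (S.a_pos r').le) hoi
  · intro k hk
    have hdrop := S.run_take (S.run_drop hrun k) L
    have hlen : L ≤ ((w.drop k).take L).length := by
      rw [List.length_take, List.length_drop]
      omega
    have hlen2 : ((w.drop k).take L).length = L := by
      rw [List.length_take, List.length_drop]
      omega
    obtain ⟨u, r, r', w', hsub, hineq⟩ := hWE t ht hB ((w.drop k).take L) _ hdrop
      (fun r hr => hU r (List.mem_of_mem_drop (List.mem_of_mem_take hr))) hlen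
    -- the decomposition of `w`
    have hw : w = (w.take k ++ u) ++ r :: r' :: (w' ++ (w.drop k).drop L) := by
      have e1 : w.drop k = (u ++ r :: r' :: w') ++ (w.drop k).drop L := by
        rw [← hsub, List.take_append_drop]
      have e2 : w = w.take k ++ w.drop k := (List.take_append_drop k w).symm
      calc w = w.take k ++ w.drop k := e2
        _ = w.take k ++ ((u ++ r :: r' :: w') ++ (w.drop k).drop L) := by rw [← e1]
        _ = _ := by simp
    have hklen : (w.take k).length = k := by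
      rw [List.length_take]; omega
    have hulen : (w.take k ++ u).length = k + u.length := by
      rw [List.length_append, hklen]
    have hLu : u.length + 2 ≤ L := by
      rw [← hlen2, hsub]
      simp
    obtain ⟨v, z, hvlen, hwv, g1, g2⟩ : ∃ v z, v.length = k + u.length ∧
        w = v ++ r :: r' :: z ∧
        S.g t (u ++ [r]) (S.g t (w.take k) x) = S.g t (v ++ [r]) x ∧
        S.g t (u ++ [r] ++ [r']) (S.g t (w.take k) x) = S.g t (v ++ [r] ++ [r']) x := by
      refine ⟨w.take k ++ u, w' ++ (w.drop k).drop L, hulen, hw, ?_, ?_⟩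
      · rw [← Surf.g_append, List.append_assoc]
      · rw [← Surf.g_append]
        congr 1
        simp
    rw [g1, g2] at hineq
    have hw2 : w = (v ++ [r]) ++ r' :: z := by rw [hwv]; simp
    have e1 : aa S w (v.length + 1) = S.a r' := by
      rw [hw2, show v.length + 1 = (v ++ [r]).length by simp, aa_eq]
    have e2 : hh S U T t x w v.length = S.hin U T t r (S.g t (v ++ [r]) x) := by
      rw [hwv, hh_eq]
    have e3 : hh S U T t x w (v.length + 1) =
        S.hin U T t r' (S.g t (v ++ [r] ++ [r']) x) := by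
      rw [hw2, show v.length + 1 = (v ++ [r]).length by simp, hh_eq]
    refine ⟨v.length, by omega, by omega, ?_⟩
    rw [e1, e2, e3]
    refine le_trans ?_ hineq
    apply mul_le_mul_of_nonneg_right
    · have := min_le_left c₁ c₂
      linarith
    · exact mul_nonneg (S.a_pos r').le (hpos v r (r' :: z) hwv).1.le
  · intro hk
    obtain ⟨u, r, w', hw, hu, hc⟩ := hHB t ht w x hrun hU (by omega)
    refine ⟨u.length, hu, ?_⟩
    have e2 : hh S U T t x w u.length = S.hin U T t r (S.g t (u ++ [r]) x) := by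
      rw [hw, hh_eq]
    rw [e2]
    exact le_trans (min_le_right _ _) hc

end Pool.Agent.H33.DU.AB
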