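import Pool.Agent.H44.DU.Targets

/-!
# Board du_modules (MP_81a758_an), module `GA`
-/

set_option autoImplicit false

namespace Pool.Agent.H33.DU.GA

open Pool.Agent.H44.DU

variable {n : ℕ} (S : Surf n)

/-- the type of a step -/
theorem step_type {t x : ℝ} {r r' : Side n} (h : S.Run t [r, r'] x) :
    r' = nx (S.gl r) ∨ r' = nx (nx (S.gl r)) := by
  rw [Surf.run_cons_cons, Surf.run_single] at h
  obtain ⟨h1, h2, h3⟩ := h
  rcases side_cases h2.symm with h4 | h4 | h4
  · exfalso
    rw [h4] at h3
    exact S.not_inI_of_inJ h3 ((S.inI_gl_iff t r x).2 h1)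
  · exact Or.inl h4
  · exact Or.inr h4

theorem run_two {t x : ℝ} {r r' : Side n} {w : List (Side n)} (h : S.Run t (r :: r' :: w) x) :
    S.Run t [r, r'] x := S.run_take h 2

theorem same_type {t c : ℝ}
    (hSG : ∀ (r0 r1 r2 : Side n) (x : ℝ), S.Run t [r0, r1, r2] x →
      (r1 = nx (S.gl r0) ∧ r2 = nx (nx (S.gl r1))) ∨
        (r1 = nx (nx (S.gl r0)) ∧ r2 = nx (S.gl r1)) →
      c ≤ S.sg t r0 r1 (S.mv t r0 x) ∨ c ≤ S.sg t r1 r2 (S.mv t r1 (S.mv t r0 x)))
    (w : List (Side n)) : ∀ x : ℝ, S.Run t w x →
    (∀ u r r' w', w = u ++ r :: r' :: w' → ¬ c ≤ S.sg t r r' (S.g t (u ++ [r]) x)) →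
    List.IsChain (fun r r' => r' = nx (S.gl r)) w ∨
      List.IsChain (fun r r' => r' = nx (nx (S.gl r))) w := by
  induction w with
  | nil => intro x _ _; exact Or.inl List.isChain_nil
  | cons r0 w ih =>
    intro x hrun hno
    cases w with
    | nil => exact Or.inl (List.isChain_singleton _)
    | cons r1 w =>
      have hrun1 : S.Run t (r1 :: w) (S.mv t r0 x) :=
        ((S.run_cons_cons t r0 r1 w x).1 hrun).2.2
      have hno1 : ∀ u r r' w', r1 :: w = u ++ r :: r' :: w' →
          ¬ c ≤ S.sg t r r' (S.g t (u ++ [r]) (S.mv t r0 x)) := by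
        intro u r r' w' hw
        have := hno (r0 :: u) r r' w' (by rw [hw]; rfl)
        rwa [List.cons_append, Surf.g_cons] at this
      have ht := step_type S (run_two S hrun)
      rcases ih (S.mv t r0 x) hrun1 hno1 with hc | hc
      · rcases ht with h1 | h1
        · exact Or.inl (List.isChain_cons_cons.2 ⟨h1, hc⟩)
        · cases w with
          | nil => exact Or.inr (List.isChain_cons_cons.2 ⟨h1, List.isChain_singleton _⟩)
          | cons r2 w =>
            exfalso
            have h2 : r2 = nx (S.gl r1) := (List.isChain_cons_cons.1 hc).1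
            have h3 : S.Run t [r0, r1, r2] x := S.run_take hrun 3
            rcases hSG r0 r1 r2 x h3 (Or.inr ⟨h1, h2⟩) with h4 | h4
            · have := hno [] r0 r1 (r2 :: w) rfl
              rw [List.nil_append, Surf.g_single] at this
              exact this h4
            · have := hno [r0] r1 r2 w rfl
              rw [List.cons_append, List.nil_append, Surf.g_cons, Surf.g_single] at this
              exact this h4
      · rcases ht with h1 | h1
        · cases w with
          | nil => exact Or.inl (List.isChain_cons_cons.2 ⟨h1, List.isChain_singleton _⟩)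
          | cons r2 w =>
            exfalso
            have h2 : r2 = nx (nx (S.gl r1)) := (List.isChain_cons_cons.1 hc).1
            have h3 : S.Run t [r0, r1, r2] x := S.run_take hrun 3
            rcases hSG r0 r1 r2 x h3 (Or.inl ⟨h1, h2⟩) with h4 | h4
            · have := hno [] r0 r1 (r2 :: w) rfl
              rw [List.nil_append, Surf.g_single] at this
              exact this h4
            · have := hno [r0] r1 r2 w rfl
              rw [List.cons_append, List.nil_append, Surf.g_cons, Surf.g_single] at this
              exact this h4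
        · exact Or.inr (List.isChain_cons_cons.2 ⟨h1, hc⟩)

theorem chain_sl1 (hSL : T_SL) {t : ℝ} (w : List (Side n)) : ∀ x : ℝ, S.Run t w x →
    List.IsChain (fun r r' => r' = nx (S.gl r)) w →
    List.IsChain (fun r r' => S.sl t r' < S.sl t r) w := by
  induction w with
  | nil => intro x _ _; exact List.isChain_nil
  | cons r0 w ih =>
    intro x hrun hc
    cases w with
    | nil => exact List.isChain_singleton _
    | cons r1 w =>
      rw [List.isChain_cons_cons] at hc ⊢
      exact ⟨(hSL n S t x r0 r1 (run_two S hrun)).1 hc.1,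
        ih _ ((S.run_cons_cons t r0 r1 w x).1 hrun).2.2 hc.2⟩

theorem chain_sl2 (hSL : T_SL) {t : ℝ} (w : List (Side n)) : ∀ x : ℝ, S.Run t w x →
    List.IsChain (fun r r' => r' = nx (nx (S.gl r))) w →
    List.IsChain (fun r r' => S.sl t r < S.sl t r') w := by
  induction w with
  | nil => intro x _ _; exact List.isChain_nil
  | cons r0 w ih =>
    intro x hrun hc
    cases w with
    | nil => exact List.isChain_singleton _
    | cons r1 w =>
      rw [List.isChain_cons_cons] at hc ⊢
      exact ⟨(hSL n S t x r0 r1 (run_two S hrun)).2 hc.1,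
        ih _ ((S.run_cons_cons t r0 r1 w x).1 hrun).2.2 hc.2⟩

theorem pf_GA (h1 : T_SG) (h2 : T_SL) : T_GA := by
  intro n S K
  obtain ⟨c, hc, hSG⟩ := h1 n S K
  refine ⟨c, hc, ?_⟩
  intro t ht w x hrun hlen
  by_contra hno
  have hno' : ∀ u r r' w', w = u ++ r :: r' :: w' →
      ¬ c ≤ S.sg t r r' (S.g t (u ++ [r]) x) := by
    intro u r r' w' hw hcc
    exact hno ⟨u, r, r', w', hw, hcc⟩
  have hnodup : w.Nodup := by
    rcases same_type S (hSG t ht) w x hrun hno' with hch | hch
    · have h3 := chain_sl1 S h2 w x hrun hch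
      have : Trans (fun r r' : Side n => S.sl t r' < S.sl t r)
          (fun r r' : Side n => S.sl t r' < S.sl t r)
          (fun r r' : Side n => S.sl t r' < S.sl t r) := ⟨fun a b => b.trans a⟩
      have h4 := List.isChain_iff_pairwise.1 h3
      refine h4.imp ?_
      intro a b hab hab'
      rw [hab'] at hab
      exact lt_irrefl _ hab
    · have h3 := chain_sl2 S h2 w x hrun hch
      have : Trans (fun r r' : Side n => S.sl t r < S.sl t r')
          (fun r r' : Side n => S.sl t r < S.sl t r')
          (fun r r' : Side n => S.sl t r < S.sl t r') := ⟨fun a b => a.trans b⟩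
      have h4 := List.isChain_iff_pairwise.1 h3
      refine h4.imp ?_
      intro a b hab hab'
      rw [hab'] at hab
      exact lt_irrefl _ hab
  have h5 := hnodup.length_le_card
  rw [Fintype.card_prod, Fintype.card_fin, Fintype.card_fin] at h5
  omega

end Pool.Agent.H33.DU.GA
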