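import Pool.Agent.H44.DU.Targets

/-!
# Board du_modules (MP_81a758_an), module `NB`
-/

set_option autoImplicit false

namespace Pool.Agent.H33.DU.NB

open Pool.Agent.H44.DU Filter Topology

theorem pf_NB (h1 : T_LH) (h2 : T_DV) : T_NB := by
  intro n S t₀ I N hGd hB
  have hfin : {w : List (Side n) | w.length = N + 1}.Finite :=
    List.finite_length_eq (Side n) (N + 1)
  have hall : ∀ᶠ t in 𝓝 t₀, ∀ w ∈ {w : List (Side n) | w.length = N + 1},
      (∀ r ∈ w, I r) → ∀ x, ¬ S.Run t w x := by
    rw [eventually_all_finite hfin]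
    intro w hw
    by_cases hI : ∀ r ∈ w, I r
    swap
    · exact Eventually.of_forall (fun t h => absurd h hI)
    have hlen : w.length = N + 1 := hw
    have hne : w ≠ [] := by
      intro h
      rw [h] at hlen
      simp at hlen
    have hnot : ∀ x, ¬ S.Run t₀ w x := by
      intro x hx
      have := hB w x hI hx
      omega
    by_cases hC : S.Chn w
    swap
    · exact Eventually.of_forall (fun t _ x hx => hC ((h1 n S t w hne x).1 hx).1)
    have hle : S.hi t₀ w ≤ S.lo t₀ w := by
      by_contra hlt
      push Not at hlt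
      apply hnot ((S.lo t₀ w + S.hi t₀ w) / 2)
      rw [h1 n S t₀ w hne]
      exact ⟨hC, by linarith, by linarith⟩
    obtain ⟨⟨u, r, w', hw1, hlo⟩, ⟨u', r', w'', hw2, hhi⟩, -⟩ := h2 n S t₀ w hne
    have hb : ∀ t, xi t (S.dev u (nx r)) ≤ S.lo t w ∧ S.hi t w ≤ xi t (S.dev u' r') := by
      intro t
      have h3 := (h2 n S t w hne).2.2
      exact ⟨(h3 u r w' hw1).1, (h3 u' r' w'' hw2).2⟩
    rw [hlo, hhi] at hle
    have hcont : ∀ z : ℂ, Continuous fun t => xi t z := by
      intro z
      unfold xi
      fun_prop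
    rcases lt_or_eq_of_le hle with h3 | h3
    · have h4 : ∀ᶠ t in 𝓝 t₀, xi t (S.dev u' r') < xi t (S.dev u (nx r)) :=
        (hcont _).continuousAt.eventually_lt (hcont _).continuousAt h3
      filter_upwards [h4] with t ht _ x hx
      obtain ⟨-, h5, h6⟩ := (h1 n S t w hne x).1 hx
      obtain ⟨h7, h8⟩ := hb t
      linarith
    · have him := hGd u' u r' (nx r) h3
      have hre : (S.dev u' r').re = (S.dev u (nx r)).re := by
        have h4 := h3
        unfold xi at h4
        rw [him] at h4
        linarith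
      have heq : S.dev u' r' = S.dev u (nx r) := Complex.ext hre him
      refine Eventually.of_forall (fun t _ x hx => ?_)
      obtain ⟨-, h5, h6⟩ := (h1 n S t w hne x).1 hx
      obtain ⟨h7, h8⟩ := hb t
      rw [heq] at h8
      linarith
  obtain ⟨δ, hδ, hball⟩ := Metric.eventually_nhds_iff.1 hall
  refine ⟨δ, hδ, ?_⟩
  intro t ht w x hI hrun
  by_contra hlen
  push Not at hlen
  have htake : (w.take (N + 1)).length = N + 1 := by
    rw [List.length_take]; omega
  exact hball (by rw [Real.dist_eq]; exact ht) (w.take (N + 1)) htake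
    (fun r hr => hI r (List.mem_of_mem_take hr)) x (S.run_take hrun (N + 1))

end Pool.Agent.H33.DU.NB
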