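import Pool.Agent.H44.DU.Targets

/-!
# Board du_modules (MP_81a758_an), module `SL`
-/

set_option autoImplicit false

namespace Pool.Agent.H33.DU.SL

open Pool.Agent.H44.DU

theorem pf_SL : T_SL := by
  intro n S t x r r' hrun
  rw [Surf.run_cons_cons, Surf.run_single] at hrun
  obtain ⟨hr, hj, hr'⟩ := hrun
  have har := S.ar_pos (S.gl r)
  have ha := S.a_pos r
  have hv1 : 0 < xi t (S.P r) - xi t (S.Q r) := by
    have := hr.1.trans hr.2
    linarith
  have hv2 : 0 < xi t (S.P r') - xi t (S.Q r') := by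
    have := hr'.1.trans hr'.2
    linarith
  have hP : S.P (S.gl r) = S.a r * S.Q r + S.b r := S.P_gl r
  have hQ : S.Q (S.gl r) = S.a r * S.P r + S.b r := S.Q_gl r
  have hre : (S.Q (S.gl r)).re - (S.P (S.gl r)).re = S.a r * ((S.P r).re - (S.Q r).re) := by
    rw [hP, hQ]
    simp only [Complex.add_re, Complex.re_ofReal_mul]
    ring
  have him : (S.Q (S.gl r)).im - (S.P (S.gl r)).im = S.a r * ((S.P r).im - (S.Q r).im) := by
    rw [hP, hQ]
    simp only [Complex.add_im, Complex.im_ofReal_mul]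
    ring
  simp only [Surf.ar, Complex.sub_re, Complex.sub_im] at har
  rw [hre, him] at har
  constructor
  · intro h
    have e1 : S.P r' = S.Q (S.gl r) := by rw [h, Surf.P_nx]
    have e2 : S.Q r' = S.O (S.gl r) := by rw [h, Surf.Q_nx]
    rw [Surf.sl, Surf.sl, div_lt_div_iff₀ hv2 hv1]
    simp only [xi, Complex.sub_im]
    rw [e1, e2]
    have h1 : 0 < S.a r * (((S.P r).im - (S.Q r).im) *
        ((S.Q (S.gl r)).re - (S.O (S.gl r)).re) -
        ((S.P r).re - (S.Q r).re) * ((S.Q (S.gl r)).im - (S.O (S.gl r)).im)) := by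
      have q1 : (S.Q (S.gl r)).re = (S.P (S.gl r)).re + S.a r * ((S.P r).re - (S.Q r).re) := by
        linarith
      have q2 : (S.Q (S.gl r)).im = (S.P (S.gl r)).im + S.a r * ((S.P r).im - (S.Q r).im) := by
        linarith
      rw [q1, q2]
      linarith [har]
    have h2 := (mul_pos_iff_of_pos_left ha).1 h1
    nlinarith [h2]
  · intro h
    have e1 : S.P r' = S.O (S.gl r) := by rw [h, Surf.P_nx_nx]
    have e2 : S.Q r' = S.P (S.gl r) := by rw [h, Surf.Q_nx_nx]
    rw [Surf.sl, Surf.sl, div_lt_div_iff₀ hv1 hv2]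
    simp only [xi, Complex.sub_im]
    rw [e1, e2]
    have h1 : 0 < S.a r * (((S.P r).re - (S.Q r).re) *
        ((S.O (S.gl r)).im - (S.P (S.gl r)).im) -
        ((S.P r).im - (S.Q r).im) * ((S.O (S.gl r)).re - (S.P (S.gl r)).re)) := by
      nlinarith [har]
    have h2 := (mul_pos_iff_of_pos_left ha).1 h1
    nlinarith [h2]

end Pool.Agent.H33.DU.SL
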