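import Pool.Agent.H44.DU.Targets

/-!
# Board du_modules (MP_81a758_an), module `X2`
-/

set_option autoImplicit false

namespace Pool.Agent.H33.DU.X2

open Pool.Agent.H44.DU Filter Topology

theorem local_tau {τ : Set ℝ} (hopen : IsOpen τ) (hord : τ.OrdConnected) (t₀ : ℝ) :
    ∀ᶠ δ in 𝓝[>] (0 : ℝ), (∀ t, |t - t₀| < δ → t ∉ τ) ∨ t₀ + δ / 2 ∈ τ ∨ t₀ - δ / 2 ∈ τ := by
  by_cases hfar : ∃ ε > (0 : ℝ), ∀ t, |t - t₀| < ε → t ∉ τ
  · obtain ⟨ε, hε, h⟩ := hfar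
    have : ∀ᶠ δ in 𝓝[>] (0 : ℝ), δ < ε := nhdsWithin_le_nhds (eventually_lt_nhds hε)
    filter_upwards [this] with δ hδ
    exact Or.inl (fun t ht => h t (ht.trans hδ))
  push Not at hfar
  by_cases h0 : t₀ ∈ τ
  · have hc : Tendsto (fun δ : ℝ => t₀ + δ / 2) (𝓝 0) (𝓝 t₀) := by
      have : Continuous fun δ : ℝ => t₀ + δ / 2 := by fun_prop
      have h := this.tendsto 0
      simpa using h
    have h1 : ∀ᶠ δ in 𝓝 (0 : ℝ), t₀ + δ / 2 ∈ τ := hc (hopen.mem_nhds h0)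
    filter_upwards [nhdsWithin_le_nhds h1] with δ hδ
    exact Or.inr (Or.inl hδ)
  · obtain ⟨t₁, ht₁, hτ₁⟩ := hfar 1 one_pos
    rcases lt_trichotomy t₁ t₀ with hlt | heq | hgt
    · have hside : ∀ t ∈ τ, t < t₀ := by
        intro t ht
        by_contra hge
        push Not at hge
        exact h0 (hord.out hτ₁ ht ⟨hlt.le, hge⟩)
      have : ∀ᶠ δ in 𝓝[>] (0 : ℝ), δ < t₀ - t₁ :=
        nhdsWithin_le_nhds (eventually_lt_nhds (by linarith))
      filter_upwards [this, self_mem_nhdsWithin] with δ hδ hδ0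
      rw [Set.mem_Ioi] at hδ0
      obtain ⟨t₂, ht₂, hτ₂⟩ := hfar (δ / 2) (by linarith)
      have h3 := hside t₂ hτ₂
      rw [abs_lt] at ht₂
      exact Or.inr (Or.inr (hord.out hτ₁ hτ₂ ⟨by linarith, by linarith⟩))
    · exact absurd (heq ▸ hτ₁) h0
    · have hside : ∀ t ∈ τ, t₀ < t := by
        intro t ht
        by_contra hge
        push Not at hge
        exact h0 (hord.out ht hτ₁ ⟨hge, hgt.le⟩)
      have : ∀ᶠ δ in 𝓝[>] (0 : ℝ), δ < t₁ - t₀ :=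
        nhdsWithin_le_nhds (eventually_lt_nhds (by linarith))
      filter_upwards [this, self_mem_nhdsWithin] with δ hδ hδ0
      rw [Set.mem_Ioi] at hδ0
      obtain ⟨t₂, ht₂, hτ₂⟩ := hfar (δ / 2) (by linarith)
      have h3 := hside t₂ hτ₂
      rw [abs_lt] at ht₂
      exact Or.inr (Or.inl (hord.out hτ₂ hτ₁ ⟨by linarith, by linarith⟩))

theorem pf_X2 (h1 : T_X1) (h2 : T_OP) : T_X2 := by
  intro n S t₀ m hm
  have hfin : {w : List (Side n) | w.length = m}.Finite := List.finite_length_eq (Side n) m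
  have hall : ∀ᶠ δ in 𝓝[>] (0 : ℝ), ∀ w ∈ {w : List (Side n) | w.length = m},
      (∀ t, |t - t₀| < δ → t ∉ {t : ℝ | ∃ x, S.Run t w x}) ∨
        t₀ + δ / 2 ∈ {t : ℝ | ∃ x, S.Run t w x} ∨ t₀ - δ / 2 ∈ {t : ℝ | ∃ x, S.Run t w x} := by
    rw [eventually_all_finite hfin]
    intro w _
    exact local_tau (h2 n S w).1 (h2 n S w).2 t₀
  obtain ⟨δ, hδ, hδ0⟩ := (hall.and self_mem_nhdsWithin).exists
  refine ⟨δ, hδ0, ?_⟩
  have hsub : {w : List (Side n) | w.length = m ∧ ∃ t x, |t - t₀| < δ ∧ S.Run t w x} ⊆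
      {w : List (Side n) | w.length = m ∧ ∃ x, S.Run (t₀ + δ / 2) w x} ∪
        {w : List (Side n) | w.length = m ∧ ∃ x, S.Run (t₀ - δ / 2) w x} := by
    rintro w ⟨hw, t, x, ht, hrun⟩
    rcases hδ w hw with h | h | h
    · exact absurd ⟨x, hrun⟩ (h t ht)
    · exact Or.inl ⟨hw, h⟩
    · exact Or.inr ⟨hw, h⟩
  have hf1 : {w : List (Side n) | w.length = m ∧ ∃ x, S.Run (t₀ + δ / 2) w x}.Finite :=
    hfin.subset (fun w hw => hw.1)
  have hf2 : {w : List (Side n) | w.length = m ∧ ∃ x, S.Run (t₀ - δ / 2) w x}.Finite :=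
    hfin.subset (fun w hw => hw.1)
  calc _ ≤ ({w : List (Side n) | w.length = m ∧ ∃ x, S.Run (t₀ + δ / 2) w x} ∪
        {w : List (Side n) | w.length = m ∧ ∃ x, S.Run (t₀ - δ / 2) w x}).ncard :=
        Set.ncard_le_ncard hsub (hf1.union hf2)
    _ ≤ _ := Set.ncard_union_le _ _
    _ ≤ 3 * n * m + 3 * n * m := Nat.add_le_add (h1 n S _ m hm) (h1 n S _ m hm)
    _ = 6 * n * m := by ring

end Pool.Agent.H33.DU.X2
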